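import Pool.Agent.W345.VO.Stm

set_option autoImplicit false
set_option linter.unusedVariables false

namespace Pool.Agent.W191.VO

open MvPolynomial Pool.Agent.W345.VO

theorem hom_add {d : ℤ} {p q : PP} (hp : hom d p) (hq : hom d q) : hom d (p + q) := by
  rcases hp with ⟨h0, hp⟩ | rfl
  · rcases hq with ⟨_, hq⟩ | rfl
    · exact Or.inl ⟨h0, hp.add hq⟩
    · rw [add_zero]; exact Or.inl ⟨h0, hp⟩
  · rw [zero_add]; exact hq

theorem hom_smul {d : ℤ} {p : PP} (c : ℂ) (hp : hom d p) : hom d (c • p) := by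
  rcases hp with ⟨h0, hp⟩ | rfl
  · refine Or.inl ⟨h0, ?_⟩
    exact (weightedHomogeneousSubmodule ℂ (fun i : ℕ => i + 1) d.toNat).smul_mem c hp
  · rw [smul_zero]; exact Or.inr rfl

theorem homV_add {k d : ℤ} {v w : VV} (hv : HomV k d v) (hw : HomV k d w) : HomV k d (v + w) := by
  obtain ⟨p, rfl, hp⟩ := hv
  obtain ⟨q, rfl, hq⟩ := hw
  exact ⟨p + q, by rw [Finsupp.single_add], hom_add hp hq⟩

theorem homV_smul {k d : ℤ} {v : VV} (c : ℂ) (hv : HomV k d v) : HomV k d (c • v) := by
  obtain ⟨p, rfl, hp⟩ := hv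
  exact ⟨c • p, by rw [Finsupp.smul_single], hom_smul c hp⟩

theorem homV_zero (k d : ℤ) : HomV k d 0 := ⟨0, by rw [Finsupp.single_zero], Or.inr rfl⟩

theorem homV_sub {k d : ℤ} {v w : VV} (hv : HomV k d v) (hw : HomV k d w) : HomV k d (v - w) := by
  have h := homV_add hv (homV_smul (-1) hw)
  rw [neg_one_smul, ← sub_eq_add_neg] at h
  exact h

/-- the defect of the relation -/
noncomputable def DF (m n : ℤ) : Module.End ℂ VV :=
  EE 1 m * EE (-1) n - EE (-1) n * EE 1 m - hOp (m + n) -
    (if m + n = 0 then (m : ℂ) else 0) • (1 : Module.End ℂ VV)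

theorem DF_apply (m n : ℤ) (v : VV) : DF m n v =
    EE 1 m (EE (-1) n v) - EE (-1) n (EE 1 m v) - hOp (m + n) v -
      (if m + n = 0 then (m : ℂ) else 0) • v := rfl

theorem ef : S_HH → S_HE → S_BAS → S_HOM → S_IND → S_CON → S_EF := by
  intro hHH hHE hBAS hHOM hIND hCON
  have h1 : ∀ (m n : ℤ) (v : VV), hOp m (EE 1 n v) = EE 1 n (hOp m v) + (2 : ℂ) • EE 1 (n + m) v := by
    intro m n v
    have := hHE 1 (Or.inl rfl) m n v
    rw [sub_eq_iff_eq_add'] at this
    rw [this, add_comm m n]
    norm_num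
  have h2 : ∀ (m n : ℤ) (v : VV),
      hOp m (EE (-1) n v) = EE (-1) n (hOp m v) + (-2 : ℂ) • EE (-1) (n + m) v := by
    intro m n v
    have := hHE (-1) (Or.inr rfl) m n v
    rw [sub_eq_iff_eq_add'] at this
    rw [this, add_comm m n]
    norm_num
  have h3 : ∀ (m n : ℤ) (v : VV),
      hOp m (hOp n v) = hOp n (hOp m v) + (if m + n = 0 then 2 * (m : ℂ) else 0) • v := by
    intro m n v
    have := hHH m n v
    rw [sub_eq_iff_eq_add'] at this
    exact this
  have key : ∀ (m n : ℤ) (v : VV), DF m n v = 0 := by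
    refine hIND 0 (fun _ => 0) 2 (-2) DF ?_ ?_ ?_
    · intro l m n v
      simp only [DF_apply, map_sub, map_smul, h1, h2, h3 l (m + n), map_add]
      have e1 : l + (m + n) = m + n + l := by ring
      have e2 : m + l + n = m + n + l := by ring
      have e3 : m + (n + l) = m + n + l := by ring
      simp only [e1, e2, e3]
      by_cases h : m + n + l = 0
      · simp only [h, if_true]
        push_cast
        module
      · simp only [h, if_false]
        module
    · intro m n k
      rw [DF_apply]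
      have g0 := hHOM.1 k
      have a1 := hHOM.2.2.1 1 _ _ m _ (hHOM.2.2.1 (-1) k 0 n (ee k) g0)
      have a2 := hHOM.2.2.1 (-1) _ _ n _ (hHOM.2.2.1 1 k 0 m (ee k) g0)
      have a3 := hHOM.2.1 k 0 (m + n) (ee k) g0
      have e1 : k + -1 + 1 = k + 0 := by ring
      have e2 : (0 : ℤ) - n - 1 - 2 * -1 * k - m - 1 - 2 * 1 * (k + -1) = 0 - m - n := by ring
      have e3 : k + 1 + -1 = k + 0 := by ring
      have e4 : (0 : ℤ) - m - 1 - 2 * 1 * k - n - 1 - 2 * -1 * (k + 1) = 0 - m - n := by ring
      have e5 : (0 : ℤ) - (m + n) = 0 - m - n := by ring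
      rw [e1, e2] at a1
      rw [e3, e4] at a2
      rw [e5] at a3
      have a4 : HomV (k + 0) (0 - m - n) ((if m + n = 0 then (m : ℂ) else 0) • ee k) := by
        by_cases h : m + n = 0
        · have e6 : (0 : ℤ) - m - n = 0 := by omega
          rw [e6, add_zero]
          exact homV_smul _ g0
        · rw [if_neg h, zero_smul]
          exact homV_zero _ _
      rw [← add_zero k] at a3
      refine homV_sub (homV_sub (homV_sub a1 a2) ?_) a4
      simpa using a3
    · intro m n k hmn
      have hn : n = -m := by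
        have : m + n = 0 := hmn
        omega
      subst hn
      rw [DF_apply, hBAS.1 (-1) (-m) k, hBAS.1 1 m k, EE_single, EE_single]
      have e0 : m + -m = 0 := by ring
      rw [e0, hBAS.2.2.1 k, if_pos rfl]
      have e1 : -(-m) - 1 - 2 * -1 * k = m - 1 + 2 * k := by ring
      have e2 : -m - 1 - 2 * 1 * (k + -1) = -(m - 1 + 2 * k) := by ring
      have e3 : -m - 1 - 2 * 1 * k = -m - 1 - 2 * k := by ring
      have e4 : -(-m) - 1 - 2 * -1 * (k + 1) = -(-m - 1 - 2 * k) := by ring
      rw [e1, e2, e3, e4]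
      have c1 : ((1 : ℤ) : ℂ) = 1 := Int.cast_one
      have c2 : ((-1 : ℤ) : ℂ) = -1 := by push_cast; rfl
      rw [c1, c2]
      have g1 := hCON.2 1 (Or.inl rfl) (m - 1 + 2 * k)
      have g2 := hCON.2 (-1) (Or.inr rfl) (-m - 1 - 2 * k)
      rw [neg_neg] at g2
      rw [g1, g2]
      have e5 : k + -1 + 1 = k := by ring
      have e6 : k + 1 + -1 = k := by ring
      rw [e5, e6]
      unfold ee
      rw [← Finsupp.single_sub, Finsupp.smul_single, ← Finsupp.single_sub, Finsupp.smul_single,
        ← Finsupp.single_sub]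
      have hz : (C (if 0 ≤ m - 1 + 2 * k then ((m - 1 + 2 * k : ℤ) : ℂ) + 1 else 0) -
          C (if 0 ≤ -m - 1 - 2 * k then ((-m - 1 - 2 * k : ℤ) : ℂ) + 1 else 0) -
          (2 * (k : ℂ)) • (1 : PP) - (m : ℂ) • (1 : PP)) = 0 := by
        rw [← MvPolynomial.C_1, MvPolynomial.smul_eq_C_mul, MvPolynomial.smul_eq_C_mul, ← C_mul,
          ← C_mul, ← C_sub, ← C_sub, ← C_sub, mul_one, mul_one]
        rw [← C_0 (R := ℂ) (σ := ℕ)]
        congr 1
        by_cases ha : 0 ≤ m - 1 + 2 * k
        · rw [if_pos ha, if_neg (by omega)]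
          push_cast
          ring
        · by_cases hb : 0 ≤ -m - 1 - 2 * k
          · rw [if_neg ha, if_pos hb]
            push_cast
            ring
          · rw [if_neg ha, if_neg hb]
            have : m = -2 * k := by omega
            rw [this]
            push_cast
            ring
      rw [hz, Finsupp.single_zero]
  intro m n v
  have := key m n v
  rw [DF_apply, sub_eq_zero, sub_eq_iff_eq_add] at this
  rw [this]
  abel

end Pool.Agent.W191.VO
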